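import Pool.Agent.Helper38.SG.LinA

/-! # Sobolev gap, piece LIN-B: trace identities -/

open Filter Topology Set
open scoped RealInnerProductSpace ContDiff

universe u

namespace Pool.Agent.Helper42.SG

open Pool.Agent.Helper38.SG Pool.Agent.Helper38.SG.ParData

section Trace
variable {𝔤 : Type*} [NormedAddCommGroup 𝔤] [InnerProductSpace ℝ 𝔤] [FiniteDimensional ℝ 𝔤]

/-- trace of `T` over a subspace `S` -/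
theorem trace_comp_starProjection {ι : Type*} [Fintype ι] (S : Submodule ℝ 𝔤)
    (e : OrthonormalBasis ι ℝ S) (T : 𝔤 →ₗ[ℝ] 𝔤) :
    LinearMap.trace ℝ 𝔤 (T ∘ₗ (S.starProjection : 𝔤 →ₗ[ℝ] 𝔤)) = ∑ a, ⟪(e a : 𝔤), T (e a)⟫ := by
  classical
  have h1 : T ∘ₗ (S.starProjection : 𝔤 →ₗ[ℝ] 𝔤) =
      (T ∘ₗ S.subtype) ∘ₗ (S.orthogonalProjectionOnto : 𝔤 →ₗ[ℝ] S) := by
    ext x; rfl
  rw [h1, LinearMap.trace_comp_comm', LinearMap.trace_eq_sum_inner _ e]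
  refine Finset.sum_congr rfl fun a _ => ?_
  exact Submodule.inner_orthogonalProjectionOnto_eq_of_mem_left _ _

/-- if `q` fixes the range of `T ∘ p` then the trace of `T ∘ p` is that of `q ∘ T ∘ p`,
`p ∘ q ∘ T`. -/
theorem trace_move (T p q : 𝔤 →ₗ[ℝ] 𝔤) (h : ∀ X, q (T (p X)) = T (p X)) :
    LinearMap.trace ℝ 𝔤 (T ∘ₗ p) = LinearMap.trace ℝ 𝔤 ((p ∘ₗ q) ∘ₗ T) := by
  have h1 : T ∘ₗ p = q ∘ₗ (T ∘ₗ p) := by ext X; exact (h X).symm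
  rw [h1, ← LinearMap.comp_assoc, LinearMap.trace_comp_comm', ← LinearMap.comp_assoc]

omit [FiniteDimensional ℝ 𝔤] in
/-- bilinear forms and symmetric maps of a subspace -/
theorem sum_symm {V : Type*} [AddCommGroup V] [Module ℝ V] {ι : Type*} [Fintype ι]
    (e : OrthonormalBasis ι ℝ 𝔤) (T : 𝔤 →ₗ[ℝ] 𝔤) (hT : ∀ X Y, ⟪T X, Y⟫ = ⟪X, T Y⟫)
    (B : 𝔤 →ₗ[ℝ] 𝔤 →ₗ[ℝ] V) : ∑ a, B (T (e a)) (e a) = ∑ a, B (e a) (T (e a)) := by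
  have h1 : ∀ a, T (e a) = ∑ b, ⟪e b, T (e a)⟫ • e b := fun a => (e.sum_repr' _).symm
  have h2 : ∀ a, B (T (e a)) (e a) = ∑ b, ⟪e b, T (e a)⟫ • B (e b) (e a) := by
    intro a
    conv_lhs => rw [h1 a]
    simp only [map_sum, map_smul, LinearMap.sum_apply, LinearMap.smul_apply]
  have h3 : ∀ a, B (e a) (T (e a)) = ∑ b, ⟪e b, T (e a)⟫ • B (e a) (e b) := by
    intro a
    conv_lhs => rw [h1 a]
    simp only [map_sum, map_smul]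
  simp_rw [h2, h3]
  rw [Finset.sum_comm]
  refine Finset.sum_congr rfl fun a _ => Finset.sum_congr rfl fun b _ => ?_
  rw [← hT, real_inner_comm]

end Trace

variable {G 𝔤 : Type u} [Group G] [TopologicalSpace G]
  [NormedAddCommGroup 𝔤] [InnerProductSpace ℝ 𝔤] [FiniteDimensional ℝ 𝔤]

variable (P : ParData G 𝔤)

omit [FiniteDimensional ℝ 𝔤] in
theorem br_θ_left (X Y : 𝔤) : P.br (P.θ X) Y = P.θ (P.br X (P.θ Y)) := by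
  rw [P.θ_br, P.θ_θ]

theorem trace_br (X : 𝔤) : LinearMap.trace ℝ 𝔤 (P.br X) = 0 := by
  classical
  have h1 : LinearMap.trace ℝ 𝔤 (P.br X) = - LinearMap.trace ℝ 𝔤 (P.br (P.θ X)) := by
    rw [LinearMap.trace_eq_sum_inner _ (stdOrthonormalBasis ℝ 𝔤),
      LinearMap.trace_eq_sum_inner _ (stdOrthonormalBasis ℝ 𝔤), ← Finset.sum_neg_distrib]
    refine Finset.sum_congr rfl fun i _ => ?_
    rw [real_inner_comm, P.inv]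
  have h2 : LinearMap.trace ℝ 𝔤 (P.br (P.θ X)) = LinearMap.trace ℝ 𝔤 (P.br X) := by
    have h3 : P.br (P.θ X) = P.θ ∘ₗ (P.br X ∘ₗ P.θ) := by
      ext Y; rw [br_θ_left]; rfl
    have h4 : P.θ ∘ₗ P.θ = LinearMap.id := by ext Y; exact P.θ_θ Y
    rw [h3, LinearMap.trace_comp_comm', LinearMap.comp_assoc, h4, LinearMap.comp_id]
  linarith

theorem inner_𝔫_θ𝔫 {X Y : 𝔤} (hX : X ∈ P.𝔫) (hY : Y ∈ P.𝔫) : ⟪X, P.θ Y⟫ = 0 := by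
  refine Submodule.iSup_induction
    (fun μ : Set.Ioi (0 : ℝ) => Module.End.eigenspace (P.br P.H0) (μ : ℝ))
    (motive := fun X => ⟪X, P.θ Y⟫ = 0) hX ?_ (by simp)
    (fun a b ha hb => by rw [inner_add_left, ha, hb, add_zero])
  intro μ X hX
  refine Submodule.iSup_induction
    (fun μ : Set.Ioi (0 : ℝ) => Module.End.eigenspace (P.br P.H0) (μ : ℝ))
    (motive := fun Y => ⟪X, P.θ Y⟫ = 0) hY ?_ (by simp)
    (fun a b ha hb => by rw [map_add, inner_add_right, ha, hb, add_zero])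
  intro ν Y hY
  rw [Module.End.mem_eigenspace_iff] at hX hY
  have h1 := P.ad_symm P.H0.2 X (P.θ Y)
  have h2 : P.br P.H0 (P.θ Y) = -((ν : ℝ) • P.θ Y) := by
    have h3 : P.θ (P.br P.H0 Y) = P.br (P.θ P.H0) (P.θ Y) := P.θ_br _ _
    rw [P.θ_𝔞 _ P.H0.2, hY, map_smul, map_neg, LinearMap.neg_apply] at h3
    rw [h3, neg_neg]
  rw [hX, h2, inner_neg_right, real_inner_smul_left, real_inner_smul_right] at h1
  have hμ : (0 : ℝ) < μ := μ.2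
  have hν : (0 : ℝ) < ν := ν.2
  have h4 : ((μ : ℝ) + ν) * ⟪X, P.θ Y⟫ = 0 := by linarith
  rcases mul_eq_zero.1 h4 with h | h
  · linarith
  · exact h

theorem En_mem (X : 𝔤) : P.En X ∈ P.𝔫 := Submodule.starProjection_apply_mem _ _

theorem En_of_mem {X : 𝔤} (hX : X ∈ P.𝔫) : P.En X = X := Submodule.starProjection_eq_self_iff.2 hX

theorem En_θ {X : 𝔤} (hX : X ∈ P.𝔫) : P.En (P.θ X) = 0 := by
  refine (Submodule.starProjection_apply_eq_zero_iff _).2 ?_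
  rw [Submodule.mem_orthogonal]
  exact fun Y hY => inner_𝔫_θ𝔫 P hY hX

theorem pN_of_mem {X : 𝔤} (hX : X ∈ P.𝔫) : P.pN X = X := by
  have h1 : P.pN X = P.En X - P.En (P.θ X) := rfl
  rw [h1, En_of_mem P hX, En_θ P hX, sub_zero]

theorem Ea_mem (X : 𝔤) : P.Ea X ∈ P.𝔞 := Submodule.starProjection_apply_mem _ _

section B
variable (hsk : ∀ X, P.br X X = 0)
  (hjac : ∀ X Y Z, P.br X (P.br Y Z) = P.br (P.br X Y) Z + P.br Y (P.br X Z))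
include hsk hjac

theorem Ea_of_mem_𝔫 {X : 𝔤} (hX : X ∈ P.𝔫) : P.Ea X = 0 := by
  refine (Submodule.starProjection_apply_eq_zero_iff _).2 ?_
  rw [Submodule.mem_orthogonal]
  exact fun Y hY => P.inner_𝔞_𝔫 hsk hjac hY hX

theorem pK_of_mem_𝔫 {X : 𝔤} (hX : X ∈ P.𝔫) : P.pK X = 0 := by
  have h := P.iwasawa_decomp hsk hjac X
  rw [Ea_of_mem_𝔫 P hsk hjac hX, pN_of_mem P hX, add_zero] at h
  exact right_eq_add.1 h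

theorem br_𝔞_𝔫 {H X : 𝔤} (hH : H ∈ P.𝔞) (hX : X ∈ P.𝔫) : P.br H X ∈ P.𝔫 :=
  P.br_ker_𝔫 hsk hjac (P.br_𝔞 _ P.H0.2 _ hH) hX

/-- `ρ` as defined vanishes on `𝔫` -/
theorem ρ_𝔫 {X : 𝔤} (hX : X ∈ P.𝔫) : P.ρ X = 0 := by
  have hn : IsNilpotent (P.br X ∘ₗ (P.En : 𝔤 →ₗ[ℝ] 𝔤)) := by
    obtain ⟨n, hn⟩ := P.nilpotent_ad hsk hjac hX
    refine ⟨n + 1, ?_⟩
    have h1 : ∀ m : ℕ, (P.br X ∘ₗ (P.En : 𝔤 →ₗ[ℝ] 𝔤)) ^ (m + 1) =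
        ((P.br X) ^ (m + 1)) ∘ₗ (P.En : 𝔤 →ₗ[ℝ] 𝔤) := by
      intro m
      induction m with
      | zero => simp
      | succ m ih =>
        rw [pow_succ' (P.br X ∘ₗ (P.En : 𝔤 →ₗ[ℝ] 𝔤)), ih, pow_succ' (P.br X) (m + 1)]
        ext Y
        have h2 : ∀ (k : ℕ) (Z : 𝔤), Z ∈ P.𝔫 → ((P.br X) ^ k) Z ∈ P.𝔫 := by
          intro k
          induction k with
          | zero => intro Z hZ; simpa using hZ
          | succ k ihk =>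
            intro Z hZ
            rw [pow_succ', Module.End.mul_apply]
            exact P.br_𝔫_𝔫 hsk hjac hX (ihk Z hZ)
        have h3 : P.En ((P.br X ^ (m + 1)) (P.En Y)) = (P.br X ^ (m + 1)) (P.En Y) :=
          En_of_mem P (h2 _ _ (En_mem P Y))
        change P.br X (P.En ((P.br X ^ (m + 1)) (P.En Y))) = P.br X ((P.br X ^ (m + 1)) (P.En Y))
        rw [h3]
    rw [h1, pow_succ, hn, zero_mul, LinearMap.zero_comp]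
  have h := (LinearMap.isNilpotent_trace_of_isNilpotent hn).eq_zero
  rw [P.ρ_apply]
  have h2 : LinearMap.trace ℝ 𝔤 (P.br X ∘ₗ (P.𝔫.starProjection : 𝔤 →ₗ[ℝ] 𝔤)) = 0 := h
  rw [h2, mul_zero]

omit hsk hjac in
/-- `ρ` as defined vanishes on `𝔨` -/
theorem ρ_𝔨' {X : 𝔤} (hX : X ∈ P.𝔨) : P.ρ X = 0 := by
  rw [P.ρ_apply, trace_comp_starProjection P.𝔫 (stdOrthonormalBasis ℝ P.𝔫),
    Finset.sum_eq_zero, mul_zero]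
  intro a _
  have h := P.ad_skew hX (stdOrthonormalBasis ℝ P.𝔫 a : 𝔤) (stdOrthonormalBasis ℝ P.𝔫 a : 𝔤)
  rw [real_inner_comm] at h
  linarith

theorem ρ_𝔨 {X : 𝔤} (hX : X ∈ P.𝔨) : P.ρ X = 0 := by
  have _ := hsk
  have _ := hjac
  exact ρ_𝔨' P hX

omit hjac in
theorem θ_br_swap (X : 𝔤) : P.θ (P.br X (P.θ X)) = -P.br X (P.θ X) := by
  rw [P.θ_br, P.θ_θ, P.br_skew hsk]

theorem br_sum_θ {ι : Type*} [Fintype ι] (e : OrthonormalBasis ι ℝ P.𝔫) {H : 𝔤}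
    (hH : H ∈ P.𝔞) : P.br H (∑ a, P.br (e a : 𝔤) (P.θ (e a : 𝔤))) = 0 := by
  let T : P.𝔫 →ₗ[ℝ] P.𝔫 := (P.br H).restrict fun X hX => br_𝔞_𝔫 P hsk hjac hH hX
  have hT : ∀ X Y : P.𝔫, ⟪T X, Y⟫ = ⟪X, T Y⟫ := fun X Y => P.ad_symm hH X Y
  let B : P.𝔫 →ₗ[ℝ] P.𝔫 →ₗ[ℝ] 𝔤 := P.br.compl₁₂ P.𝔫.subtype (P.θ ∘ₗ P.𝔫.subtype)
  have h1 := sum_symm e T hT B
  have h2 : ∀ a, P.br H (P.br (e a : 𝔤) (P.θ (e a : 𝔤))) = B (T (e a)) (e a) - B (e a) (T (e a)) := by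
    intro a
    have h3 : B (T (e a)) (e a) = P.br (P.br H (e a)) (P.θ (e a)) := rfl
    have h4 : B (e a) (T (e a)) = P.br (e a) (P.θ (P.br H (e a))) := rfl
    rw [h3, h4, hjac, P.θ_br, P.θ_𝔞 _ hH]
    simp only [map_neg, LinearMap.neg_apply]
    abel
  rw [map_sum, Finset.sum_congr rfl fun a _ => h2 a, Finset.sum_sub_distrib, h1, sub_self]

theorem sum_br_θ_mem {ι : Type*} [Fintype ι] (e : OrthonormalBasis ι ℝ P.𝔫) :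
    ∑ a, P.br (e a : 𝔤) (P.θ (e a : 𝔤)) ∈ P.𝔞 := by
  refine P.𝔞_max _ ?_ fun H hH => br_sum_θ P hsk hjac e hH
  rw [map_sum, ← Finset.sum_neg_distrib]
  exact Finset.sum_congr rfl fun a _ => θ_br_swap P hsk _

theorem inner_sum_br_θ {ι : Type*} [Fintype ι] (e : OrthonormalBasis ι ℝ P.𝔫) {H : 𝔤}
    (hH : H ∈ P.𝔞) :
    ⟪∑ a, P.br (e a : 𝔤) (P.θ (e a : 𝔤)), H⟫ = -2 * P.ρ H := by
  rw [P.ρ_apply, trace_comp_starProjection P.𝔫 e, sum_inner]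
  rw [show -2 * (1 / 2 * ∑ a, ⟪(e a : 𝔤), (P.br H) (e a)⟫) = -∑ a, ⟪(e a : 𝔤), (P.br H) (e a)⟫ by
    ring, ← Finset.sum_neg_distrib]
  refine Finset.sum_congr rfl fun a _ => ?_
  rw [P.inv, P.br_skew hsk (P.θ (e a)) H, inner_neg_right, neg_neg]
  have h1 : P.br H (P.θ (e a)) = -P.θ (P.br H (e a)) := by
    rw [P.θ_br, P.θ_𝔞 _ hH, map_neg, LinearMap.neg_apply, neg_neg]
  rw [h1, inner_neg_right, P.θ_isom]

/-- the trace of `pK ∘ ad W` for `W` in a subspace of `𝔞 ⊕ 𝔫` -/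
theorem trace_pK_br {W : 𝔤} (h𝔞 : ∀ H ∈ P.𝔞, P.br W H ∈ P.𝔫) (h𝔫 : ∀ X ∈ P.𝔫, P.br W X ∈ P.𝔫) :
    LinearMap.trace ℝ 𝔤 ((P.pK : 𝔤 →ₗ[ℝ] 𝔤) ∘ₗ P.br W) = -(2 * P.ρ W) := by
  let q : 𝔤 →ₗ[ℝ] 𝔤 := (P.Ea : 𝔤 →ₗ[ℝ] 𝔤) + (P.pN : 𝔤 →ₗ[ℝ] 𝔤)
  have hq : ∀ X, q X = P.Ea X + P.pN X := fun X => rfl
  have hq' : ∀ X, X = P.pK X + q X := fun X => by
    rw [hq, ← add_assoc]; exact P.iwasawa_decomp hsk hjac X
  have hsum : (P.pK : 𝔤 →ₗ[ℝ] 𝔤) ∘ₗ P.br W + q ∘ₗ P.br W = P.br W := by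
    ext Y
    exact (hq' _).symm
  have h0 := trace_br P W
  rw [← hsum, map_add] at h0
  have hqn : ∀ X ∈ P.𝔫, q X = X := fun X hX => by
    rw [hq, Ea_of_mem_𝔫 P hsk hjac hX, pN_of_mem P hX, zero_add]
  have hW : ∀ Y, P.br W (q Y) ∈ P.𝔫 := fun Y => by
    rw [hq, map_add]
    exact P.𝔫.add_mem (h𝔞 _ (Ea_mem P Y)) (h𝔫 _ (P.pN_mem hsk hjac Y))
  have hqq : q ∘ₗ q = q := by
    ext Y
    have h1 : q (P.pK Y) = 0 := by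
      have h2 := hq' (P.pK Y)
      rw [P.pK_of_mem hsk hjac (P.pK_mem hsk hjac Y)] at h2
      exact left_eq_add.1 h2
    have h3 := congrArg q (hq' Y)
    rw [map_add, h1, zero_add] at h3
    exact h3.symm
  have h1 : LinearMap.trace ℝ 𝔤 (P.br W ∘ₗ q) = LinearMap.trace ℝ 𝔤 (q ∘ₗ P.br W) := by
    rw [trace_move (P.br W) q q (fun X => hqn _ (hW X)), hqq]
  have h2 : LinearMap.trace ℝ 𝔤 (P.br W ∘ₗ q) =
      LinearMap.trace ℝ 𝔤 (P.br W ∘ₗ (P.Ea : 𝔤 →ₗ[ℝ] 𝔤)) +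
      LinearMap.trace ℝ 𝔤 (P.br W ∘ₗ (P.pN : 𝔤 →ₗ[ℝ] 𝔤)) := by
    rw [← map_add, ← LinearMap.comp_add]
  have h3 : LinearMap.trace ℝ 𝔤 (P.br W ∘ₗ (P.Ea : 𝔤 →ₗ[ℝ] 𝔤)) = 0 := by
    have h4 := trace_comp_starProjection P.𝔞 (stdOrthonormalBasis ℝ P.𝔞) (P.br W)
    refine h4.trans (Finset.sum_eq_zero fun a _ => ?_)
    exact P.inner_𝔞_𝔫 hsk hjac (stdOrthonormalBasis ℝ P.𝔞 a).2
      (h𝔞 _ (stdOrthonormalBasis ℝ P.𝔞 a).2)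
  have h5 : LinearMap.trace ℝ 𝔤 (P.br W ∘ₗ (P.pN : 𝔤 →ₗ[ℝ] 𝔤)) = 2 * P.ρ W := by
    have h6 : P.br W ∘ₗ (P.pN : 𝔤 →ₗ[ℝ] 𝔤) =
        (P.br W ∘ₗ (P.En : 𝔤 →ₗ[ℝ] 𝔤)) ∘ₗ (P.pN : 𝔤 →ₗ[ℝ] 𝔤) := by
      ext Y
      change P.br W (P.pN Y) = P.br W (P.En (P.pN Y))
      rw [En_of_mem P (P.pN_mem hsk hjac Y)]
    have h7 : (P.pN : 𝔤 →ₗ[ℝ] 𝔤) ∘ₗ (P.br W ∘ₗ (P.En : 𝔤 →ₗ[ℝ] 𝔤)) =
        P.br W ∘ₗ (P.En : 𝔤 →ₗ[ℝ] 𝔤) := by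
      ext Y
      exact pN_of_mem P (h𝔫 _ (En_mem P Y))
    rw [h6, LinearMap.trace_comp_comm', h7, P.ρ_apply]
    change LinearMap.trace ℝ 𝔤 (P.br W ∘ₗ (P.En : 𝔤 →ₗ[ℝ] 𝔤)) =
      2 * (1 / 2 * LinearMap.trace ℝ 𝔤 (P.br W ∘ₗ (P.En : 𝔤 →ₗ[ℝ] 𝔤)))
    ring
  linarith

theorem sum_inner_pK_eq_trace {ι : Type*} [Fintype ι] (b : OrthonormalBasis ι ℝ P.𝔨) (W : 𝔤) :
    ∑ i, ⟪(b i : 𝔤), P.pK (P.br (b i : 𝔤) W)⟫ =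
      -LinearMap.trace ℝ 𝔤 ((P.pK : 𝔤 →ₗ[ℝ] 𝔤) ∘ₗ P.br W) := by
  have h1 : (P.𝔨.starProjection : 𝔤 →ₗ[ℝ] 𝔤) ∘ₗ ((P.pK : 𝔤 →ₗ[ℝ] 𝔤) ∘ₗ P.br W) =
      (P.pK : 𝔤 →ₗ[ℝ] 𝔤) ∘ₗ P.br W := by
    ext Y
    exact Submodule.starProjection_eq_self_iff.2 (P.pK_mem hsk hjac _)
  rw [← h1, LinearMap.trace_comp_comm', trace_comp_starProjection P.𝔨 b,
    ← Finset.sum_neg_distrib]
  refine Finset.sum_congr rfl fun i _ => ?_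
  rw [P.br_skew hsk (b i : 𝔤) W, map_neg, inner_neg_right]
  rfl

/-- the unimodularity computation behind the quasi-invariance of the measure on `K` -/
theorem sum_inner_pK {ι : Type*} [Fintype ι] (b : OrthonormalBasis ι ℝ P.𝔨) (W : 𝔤) :
    ∑ i, ⟪(b i : 𝔤), P.pK (P.br (b i : 𝔤) W)⟫ = 2 * P.ρ (P.Ea W) := by
  have hdec := P.iwasawa_decomp hsk hjac W
  have h1 : ∑ i, ⟪(b i : 𝔤), P.pK (P.br (b i : 𝔤) W)⟫ =
      ∑ i, ⟪(b i : 𝔤), P.pK (P.br (b i : 𝔤) (P.pK W))⟫ +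
      ∑ i, ⟪(b i : 𝔤), P.pK (P.br (b i : 𝔤) (P.Ea W))⟫ +
      ∑ i, ⟪(b i : 𝔤), P.pK (P.br (b i : 𝔤) (P.pN W))⟫ := by
    rw [← Finset.sum_add_distrib, ← Finset.sum_add_distrib]
    refine Finset.sum_congr rfl fun i _ => ?_
    rw [← inner_add_right, ← inner_add_right, ← map_add, ← map_add, ← map_add, ← map_add, ← hdec]
  have h2 : ∑ i, ⟪(b i : 𝔤), P.pK (P.br (b i : 𝔤) (P.pK W))⟫ = 0 := by
    refine Finset.sum_eq_zero fun i _ => ?_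
    have hZ := P.pK_mem hsk hjac W
    have h3 : P.br (b i : 𝔤) (P.pK W) ∈ P.𝔨 := by
      rw [P.mem_𝔨, P.θ_br, P.mem_𝔨.1 hZ, P.mem_𝔨.1 (b i).2]
    rw [P.pK_of_mem hsk hjac h3, P.br_skew hsk, inner_neg_right]
    have h4 := P.ad_skew hZ (b i : 𝔤) (b i : 𝔤)
    rw [real_inner_comm] at h4
    linarith
  have h3 : ∑ i, ⟪(b i : 𝔤), P.pK (P.br (b i : 𝔤) (P.Ea W))⟫ = 2 * P.ρ (P.Ea W) := by
    rw [sum_inner_pK_eq_trace P hsk hjac, trace_pK_br P hsk hjac, neg_neg]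
    · intro H hH
      rw [P.br_𝔞 _ (Ea_mem P W) _ hH]
      exact P.𝔫.zero_mem
    · exact fun X hX => br_𝔞_𝔫 P hsk hjac (Ea_mem P W) hX
  have h4 : ∑ i, ⟪(b i : 𝔤), P.pK (P.br (b i : 𝔤) (P.pN W))⟫ = 0 := by
    rw [sum_inner_pK_eq_trace P hsk hjac, trace_pK_br P hsk hjac, neg_neg,
      ρ_𝔫 P hsk hjac (P.pN_mem hsk hjac W), mul_zero]
    · intro H hH
      rw [P.br_skew hsk]
      exact P.𝔫.neg_mem (br_𝔞_𝔫 P hsk hjac hH (P.pN_mem hsk hjac W))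
    · exact fun X hX => P.br_𝔫_𝔫 hsk hjac (P.pN_mem hsk hjac W) hX
  rw [h1, h2, h3, h4, zero_add, add_zero]

end B

end Pool.Agent.Helper42.SG
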